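import Mathlib

/-! Three-cycles in a permutation group and the equivalence relation they define. -/

namespace Pool.Agent.Lib.MP_4c291d_al

open Equiv Equiv.Perm

set_option linter.unusedSectionVars false

variable {α : Type} [DecidableEq α] {G : Subgroup (Perm α)} {x y z w u v : α}

/-- the three-cycles on the three different points `x, y, z` lie in `G` -/
def C3 (G : Subgroup (Perm α)) (x y z : α) : Prop :=
  x ≠ y ∧ x ≠ z ∧ y ≠ z ∧ swap x y * swap x z ∈ G

theorem C3.s23 (h : C3 G x y z) : C3 G x z y :=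
  ⟨h.2.1, h.1, h.2.2.1.symm, by simpa using G.inv_mem h.2.2.2⟩

theorem C3.s12 (h : C3 G x y z) : C3 G y x z := by
  refine ⟨h.1.symm, h.2.2.1, h.2.1, ?_⟩
  rw [mul_swap_eq_swap_mul, swap_apply_left, swap_apply_of_ne_of_ne h.2.2.1.symm h.2.1.symm,
    swap_comm y x]
  exact h.s23.2.2.2

theorem C3.conj (h : C3 G x y z) {g : Perm α} (hg : g ∈ G) : C3 G (g x) (g y) (g z) := by
  refine ⟨g.injective.ne h.1, g.injective.ne h.2.1, g.injective.ne h.2.2.1, ?_⟩
  have := G.mul_mem (G.mul_mem hg h.2.2.2) (G.inv_mem hg)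
  rw [swap_apply_apply, swap_apply_apply]
  simpa [mul_assoc] using this

theorem C3.two (h : C3 G x y z) (h' : C3 G x y w) (hne : z ≠ w) : C3 G x z w := by
  refine ⟨h.2.1, h'.2.1, hne, ?_⟩
  have := G.mul_mem (G.inv_mem h.2.2.2) h'.2.2.2
  simpa [mul_assoc] using this

theorem C3.one (h : C3 G x y z) (h' : C3 G x u v) (h1 : y ≠ u) (h2 : y ≠ v) (h3 : z ≠ u)
    (h4 : z ≠ v) : C3 G x y u := by
  have k := h.conj h'.s23.2.2.2
  simp only [Perm.mul_apply, swap_apply_left] at k
  rw [swap_apply_of_ne_of_ne h'.1.symm h'.2.2.1, swap_apply_of_ne_of_ne h.1.symm h1,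
    swap_apply_of_ne_of_ne h.1.symm h2, swap_apply_of_ne_of_ne h.2.1.symm h3,
    swap_apply_of_ne_of_ne h.2.1.symm h4] at k
  exact (h.s12.s23.two k.s12.s23 h'.1).s12

/-- two points are equal or are moved by a common three-cycle of `G` -/
def Sim (G : Subgroup (Perm α)) (x y : α) : Prop := x = y ∨ ∃ z, C3 G x y z

theorem Sim.refl (x : α) : Sim G x x := Or.inl rfl

theorem Sim.symm (h : Sim G x y) : Sim G y x :=
  h.elim (fun e => Or.inl e.symm) fun ⟨z, k⟩ => Or.inr ⟨z, k.s12⟩

theorem Sim.c3 (h : Sim G x y) (h' : Sim G x u) (h1 : x ≠ y) (h2 : x ≠ u) (h3 : y ≠ u) :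
    C3 G x y u := by
  obtain ⟨z, k⟩ := h.resolve_left h1
  obtain ⟨v, k'⟩ := h'.resolve_left h2
  by_cases e1 : z = u
  · exact e1 ▸ k
  by_cases e2 : y = v
  · exact e2 ▸ k'.s23
  by_cases e3 : z = v
  · exact k.s23.two (e3 ▸ k'.s23) h3
  exact k.one k' h3 e2 e1 e3

theorem Sim.trans (h : Sim G x y) (h' : Sim G y z) : Sim G x z := by
  by_cases e1 : x = y
  · exact e1 ▸ h'
  by_cases e2 : y = z
  · exact e2 ▸ h
  by_cases e3 : x = z
  · exact Or.inl e3
  exact Or.inr ⟨y, (h.symm.c3 h' (Ne.symm e1) e2 e3).s12.s23⟩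

theorem Sim.conj (h : Sim G x y) {g : Perm α} (hg : g ∈ G) : Sim G (g x) (g y) :=
  h.elim (fun e => Or.inl (congrArg g e)) fun ⟨_, k⟩ => Or.inr ⟨_, k.conj hg⟩

theorem Sim.swap2 (h : Sim G x y) (h' : Sim G x z) (h1 : x ≠ y) (h2 : x ≠ z) :
    swap x y * swap x z ∈ G := by
  by_cases e : y = z
  · rw [e, swap_mul_self]; exact G.one_mem
  · exact (h.c3 h' h1 h2 e).2.2.2

theorem Sim.swap4 (h : Sim G x y) (h' : Sim G x z) (h'' : Sim G z w) (h1 : x ≠ y) (h2 : z ≠ w) :
    swap x y * swap z w ∈ G := by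
  by_cases e : x = z
  · subst e; exact h.swap2 h'' h1 h2
  · have := G.mul_mem (h.swap2 h' h1 e) (h'.symm.swap2 h'' (Ne.symm e) h2)
    rw [swap_comm z x] at this
    simpa [mul_assoc] using this

/-- a permutation that fixes all points outside a set maps the set into itself -/
theorem mem_of_fix {h : Perm α} {P : α → Prop} (hh : ∀ z, ¬ P z → h z = z) (hx : P x) :
    P (h x) := by
  by_contra hn
  have := h.injective (hh _ hn)
  exact hn (this.symm ▸ hx)

/-- the commutator of two permutations whose supports meet in one point is a three-cycle -/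
theorem c3_of_comm {g g' : Perm α} (hg : g ∈ G) (hg' : g' ∈ G) (h1 : g x ≠ x) (h2 : g' x ≠ x)
    (h : ∀ z, z ≠ x → g z = z ∨ g' z = z) : C3 G x (g x) (g' x) := by
  have a1 : g' (g x) = g x := (h _ h1).resolve_left fun e => h1 (g.injective e)
  have a2 : g (g' x) = g' x := (h _ h2).resolve_right fun e => h2 (g'.injective e)
  have hne : g x ≠ g' x := fun e => h1 (g.injective (by rw [e, a2]))
  have hd : Perm.Disjoint (swap x (g x) * g) g' := by
    intro z
    by_cases e : z = x
    · left; rw [e]; simp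
    · rcases h z e with k | k
      · by_cases e' : z = g x
        · right; rw [e', a1]
        · left; rw [Perm.mul_apply, k, swap_apply_of_ne_of_ne e e']
      · exact Or.inr k
  have hc := hd.commute
  have e : g * g' * g⁻¹ * g'⁻¹ = swap (g x) x * swap (g x) (g' x) := by
    have e1 : g = swap x (g x) * (swap x (g x) * g) := by simp
    have e2 : swap (g x) (g' x) = g' * swap x (g x) * g'⁻¹ := by
      rw [← swap_apply_apply, a1, swap_comm]
    rw [e2, swap_comm (g x) x]
    generalize swap x (g x) * g = g0 at hc e1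
    have e3 : g⁻¹ = g0⁻¹ * swap x (g x) := by
      rw [inv_eq_iff_mul_eq_one]; nth_rewrite 1 [e1]; simp [mul_assoc]
    rw [e3]
    nth_rewrite 1 [e1]
    rw [mul_assoc (swap x (g x)) g0 g', hc.eq]
    simp [mul_assoc]
  refine C3.s12 ⟨h1, hne, h2.symm, ?_⟩
  rw [← e]
  exact G.mul_mem (G.mul_mem (G.mul_mem hg hg') (G.inv_mem hg)) (G.inv_mem hg')

/-- representatives of the classes of an equivalence relation -/
theorem exists_rep {R : α → α → Prop} (hR : Equivalence R) :
    ∃ ρ : α → α, (∀ x, R x (ρ x)) ∧ ∀ x y, R x y → ρ x = ρ y := by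
  let s : Setoid α := ⟨R, hR⟩
  exact ⟨fun x => (Quotient.mk s x).out, fun x => hR.symm (Quotient.mk_out (s := s) x),
    fun x y h => congrArg Quotient.out (Quotient.sound (s := s) h)⟩

theorem eq_swap {h : Perm α} (h1 : h ≠ 1) (hh : ∀ z, z ≠ x → z ≠ y → h z = z) :
    x ≠ y ∧ h = swap x y := by
  have k : ∀ z, (z = x ∨ z = y) → (h z = x ∨ h z = y) := fun z hz =>
    mem_of_fix (P := fun z => z = x ∨ z = y) (fun z hz => hh z (not_or.1 hz).1 (not_or.1 hz).2) hz
  have hx : h x ≠ x := by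
    intro e
    refine h1 (Equiv.ext fun z => ?_)
    by_cases e1 : z = x
    · rw [e1, e]; rfl
    by_cases e2 : z = y
    · subst e2
      exact (k z (Or.inr rfl)).resolve_left fun e3 => e1 (h.injective (e3.trans e.symm))
    · exact hh z e1 e2
  have hxy : h x = y := (k x (Or.inl rfl)).resolve_left hx
  have hne : x ≠ y := fun e => hx (hxy.trans e.symm)
  have hy : h y = x := (k y (Or.inr rfl)).resolve_right fun e => hne (h.injective (hxy.trans e.symm))
  refine ⟨hne, Equiv.ext fun z => ?_⟩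
  by_cases e1 : z = x
  · rw [e1, hxy, swap_apply_left]
  by_cases e2 : z = y
  · rw [e2, hy, swap_apply_right]
  · rw [hh z e1 e2, swap_apply_of_ne_of_ne e1 e2]

theorem sq_eq_of_three {h : Perm α} (h1 : x ≠ y) (h2 : x ≠ z) (h3 : y ≠ z)
    (hh : ∀ w, w ≠ x → w ≠ y → w ≠ z → h w = w) (hx : h x = y) (hz : h z ≠ z) :
    h * h = swap x y * swap x z := by
  have k : ∀ w, (w = x ∨ w = y ∨ w = z) → (h w = x ∨ h w = y ∨ h w = z) := fun w hw =>
    mem_of_fix (P := fun w => w = x ∨ w = y ∨ w = z)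
      (fun w hw => hh w (not_or.1 hw).1 (not_or.1 (not_or.1 hw).2).1 (not_or.1 (not_or.1 hw).2).2) hw
  have hz' : h z = x := by
    rcases k z (Or.inr (Or.inr rfl)) with e | e | e
    · exact e
    · exact absurd (h.injective (hx.trans e.symm)) h2
    · exact absurd e hz
  have hy : h y = z := by
    rcases k y (Or.inr (Or.inl rfl)) with e | e | e
    · exact absurd (h.injective (e.trans hz'.symm)) h3
    · exact absurd (h.injective (hx.trans e.symm)) h1
    · exact e
  refine Equiv.ext fun w => ?_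
  simp only [Perm.mul_apply]
  by_cases e1 : w = x
  · rw [e1, hx, hy, swap_apply_left, swap_apply_of_ne_of_ne h2.symm h3.symm]
  by_cases e2 : w = y
  · rw [e2, hy, hz', swap_apply_of_ne_of_ne h1.symm h3, swap_apply_right]
  by_cases e3 : w = z
  · rw [e3, hz', hx, swap_apply_right, swap_apply_left]
  · rw [hh w e1 e2 e3, hh w e1 e2 e3, swap_apply_of_ne_of_ne e1 e3, swap_apply_of_ne_of_ne e1 e2]

/-- even permutations that fix every class are products of pairs of transpositions in classes -/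
theorem even_mem [Fintype α] {R : α → α → Prop} (hR : Equivalence R)
    (hG : ∀ x y z w, x ≠ y → z ≠ w → R x y → R z w → swap x y * swap z w ∈ G) (σ : Perm α)
    (hσ : ∀ x, R x (σ x)) :
    (sign σ = 1 → σ ∈ G) ∧ (sign σ = -1 → ∀ x y, x ≠ y → R x y → swap x y * σ ∈ G) := by
  induction hn : σ.support.card using Nat.strong_induction_on generalizing σ with
  | _ n ih =>
  by_cases h1 : σ = 1
  · subst h1
    exact ⟨fun _ => G.one_mem, fun h => absurd h (by simp)⟩
  obtain ⟨x, hx⟩ : ∃ x, σ x ≠ x := by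
    by_contra hc
    exact h1 (Equiv.ext fun x => not_not.1 fun k => hc ⟨x, k⟩)
  have hs : ∀ z, R z (swap x (σ x) z) := by
    intro z
    rw [swap_apply_def]
    split_ifs with e1 e2
    · rw [e1]; exact hσ x
    · rw [e2]; exact hR.symm (hσ x)
    · exact hR.refl z
  obtain ⟨i1, i2⟩ := ih _ (hn ▸ card_support_swap_mul hx) (swap x (σ x) * σ)
    (fun z => hR.trans (hσ z) (hs (σ z))) rfl
  rw [Perm.sign_mul, sign_swap hx.symm] at i1 i2
  refine ⟨fun h => ?_, fun h a b hab hr => ?_⟩
  · simpa using i2 (by simp [h]) x (σ x) hx.symm (hσ x)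
  · have := G.mul_mem (hG a b x (σ x) hab hx.symm hr (hσ x)) (i1 (by simp [h]))
    simpa [mul_assoc] using this

end Pool.Agent.Lib.MP_4c291d_al
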