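import Pool.Agent.Lib.MP_4c291d_al.A

/-! A group, its closure and a colouring that separates them: three-cycles and rainbow classes. -/

namespace Pool.Agent.Lib.MP_4c291d_al

open Equiv Equiv.Perm Finset

set_option linter.unusedSectionVars false

variable {α : Type} [DecidableEq α] [Fintype α]

/-- `H` agrees with `G` outside every set of more than `q` points, and the colouring `a` separates
the two groups -/
structure Ctx (G H : Subgroup (Perm α)) (q k : ℕ) (a : α → Fin k) : Prop where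
  le : G ≤ H
  app : ∀ h ∈ H, ∀ Γ : Finset α, q + 1 ≤ Γ.card → ∃ g ∈ G, ∀ z, z ∉ Γ → g z = h z
  tame : ∀ Γ : Finset α, (∀ h ∈ H, (∀ z, z ∉ Γ → h z = z) → ∃ g ∈ G, ∀ x, a (h x) = a (g x)) →
    Γ.card ≤ q
  big : 2 * q + 3 ≤ Fintype.card α
  three : 3 ≤ k
  cnt : k * q < Fintype.card α + k

variable {G H : Subgroup (Perm α)} {q k : ℕ} {a : α → Fin k} {x y z : α}

theorem Ctx.exists_not_mem (C : Ctx G H q k a) {Γ : Finset α} (hΓ : q + 1 ≤ Γ.card) :
    ∃ h ∈ H, (∀ z, z ∉ Γ → h z = z) ∧ h ∉ G := by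
  by_contra hc
  have := C.tame Γ fun h hh hs => ⟨h, not_not.1 fun k => hc ⟨h, hh, hs, k⟩, fun _ => rfl⟩
  omega

theorem Ctx.card_le (C : Ctx G H q k a) {Γ : Finset α}
    (hΓ : ∀ h ∈ H, (∀ z, z ∉ Γ → h z = z) → h = 1) : Γ.card ≤ q :=
  C.tame Γ fun h hh hs => ⟨1, G.one_mem, fun _ => by rw [hΓ h hh hs]⟩

theorem Ctx.sim_map (C : Ctx G H q k a) {h : Perm α} (hh : h ∈ H) (hs : Sim G x y) :
    Sim G (h x) (h y) := by
  have h1 : q + 1 ≤ ({x, y}ᶜ : Finset α).card := by
    have := C.big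
    have := card_le_two (a := x) (b := y)
    rw [card_compl]; omega
  obtain ⟨g, hg, k⟩ := C.app h hh _ h1
  rw [← k x (by simp), ← k y (by simp)]
  exact hs.conj hg

/-- two elements of `H` with small supports that meet only in `x` give a three-cycle in `G` -/
theorem Ctx.c3 (C : Ctx G H q k a) {Γ Γ' : Finset α} (h1 : Γ.card ≤ q + 1) (h2 : Γ'.card ≤ q + 1)
    (hd : Disjoint Γ Γ') (hx : x ∉ Γ) (hx' : x ∉ Γ') {h h' : Perm α} (hh : h ∈ H) (hh' : h' ∈ H)
    (hs : ∀ z, z ∉ Γ → z ≠ x → h z = z) (hs' : ∀ z, z ∉ Γ' → z ≠ x → h' z = z) (hm : h x ≠ x)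
    (hm' : h' x ≠ x) : ∃ y, y ≠ x ∧ Sim G x y := by
  have hb := C.big
  obtain ⟨Λ, a1, a2, a3⟩ := exists_subsuperset_card_eq (s := Γ) (t := (insert x Γ')ᶜ) (n := q + 1)
    (fun z hz => by
      rw [mem_compl, mem_insert, not_or]
      exact ⟨fun e => hx (e ▸ hz), disjoint_left.1 hd hz⟩) h1
    (by rw [card_compl, card_insert_of_notMem hx']; omega)
  have hxΛ : x ∉ Λ := fun k => by simpa using a2 k
  obtain ⟨Λ', b1, b2, b3⟩ := exists_subsuperset_card_eq (s := Γ') (t := (insert x Λ)ᶜ)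
    (n := q + 1) (fun z hz => by
      rw [mem_compl, mem_insert, not_or]
      exact ⟨fun e => hx' (e ▸ hz), fun k => by simpa [hz] using a2 k⟩) h2
    (by rw [card_compl, card_insert_of_notMem hxΛ]; omega)
  have hxΛ' : x ∉ Λ' := fun k => by simpa using b2 k
  obtain ⟨g, hg, k1⟩ := C.app h hh Λ a3.ge
  obtain ⟨g', hg', k2⟩ := C.app h' hh' Λ' b3.ge
  have := c3_of_comm (x := x) hg hg' (by rwa [k1 x hxΛ]) (by rwa [k2 x hxΛ']) fun z hz => by
    by_cases e : z ∈ Λ
    · have e' : z ∉ Λ' := fun k => by simpa [e] using b2 k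
      exact Or.inr ((k2 z e').trans (hs' z (fun k => e' (b1 k)) hz))
    · exact Or.inl ((k1 z e).trans (hs z (fun k => e (a1 k)) hz))
  exact ⟨_, this.1.symm, Or.inr ⟨_, this⟩⟩

/-- the points of a class have different colours -/
theorem Ctx.rainbow (C : Ctx G H q k a) (hs : Sim G x y) (he : a x = a y) : x = y := by
  classical
  by_contra hne
  obtain ⟨z, hz⟩ := hs.resolve_left hne
  set B : Finset α := univ.filter (Sim G x) with hB
  have mB : ∀ w, w ∈ B ↔ Sim G x w := fun w => by simp [hB]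
  have hxB : x ∈ B := (mB x).2 (Sim.refl x)
  have h3 : 3 ≤ B.card := by
    have : ({x, y, z} : Finset α) ⊆ B := by
      intro w hw
      simp only [mem_insert, mem_singleton] at hw
      rcases hw with rfl | rfl | rfl
      · exact hxB
      · exact (mB _).2 hs
      · exact (mB _).2 (Or.inr ⟨y, hz.s23⟩)
    exact (card_eq_three.2 ⟨x, y, z, hz.1, hz.2.1, hz.2.2.1, rfl⟩).ge.trans (card_le_card this)
  have hR : Equivalence fun u v : α => u = v ∨ (u ∈ B ∧ v ∈ B) :=
    ⟨fun _ => Or.inl rfl, fun h => h.imp Eq.symm And.symm, fun h h' => by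
      rcases h with rfl | h
      · exact h'
      rcases h' with rfl | h'
      · exact Or.inr h
      · exact Or.inr ⟨h.1, h'.2⟩⟩
  have hev := even_mem (G := G) hR fun u v u' v' h1 h2 r1 r2 => by
    obtain ⟨c1, c2⟩ := r1.resolve_left h1
    obtain ⟨c3, c4⟩ := r2.resolve_left h2
    rw [mB] at c1 c2 c3 c4
    exact (c1.symm.trans c2).swap4 (c1.symm.trans c3) (c3.symm.trans c4) h1 h2
  have key : ∀ j : Fin k, (B.card - 1) + (Bᶜ.filter fun w => a w = j).card ≤ q := by
    intro j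
    have := C.tame (B.erase x ∪ Bᶜ.filter fun w => a w = j) fun h hh hs' => by
      have hx : h x = x := hs' x (by simp [hxB])
      have hinv : ∀ w, h w ∈ B ↔ w ∈ B := fun w => by
        rw [mB, mB]
        refine ⟨fun k => ?_, fun k => hx ▸ C.sim_map hh k⟩
        have h0 : Sim G (h x) (h w) := by rwa [hx]
        simpa using C.sim_map (H.inv_mem hh) h0
      have hout : ∀ w, w ∉ B → a (h w) = a w := fun w hw => by
        by_cases e : w ∈ B.erase x ∪ Bᶜ.filter fun w => a w = j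
        · have e' := mem_of_fix (P := fun w => w ∈ B.erase x ∪ Bᶜ.filter fun w => a w = j) hs' e
          have hw' : h w ∉ B := fun k => hw ((hinv w).1 k)
          simp only [mem_union, mem_erase, mem_filter, hw, hw', and_false, false_or] at e e'
          rw [e.2, e'.2]
        · rw [hs' w e]
      obtain ⟨g, g1, g2⟩ : ∃ g : Perm α, (∀ w ∈ B, g w = h w) ∧ ∀ w, w ∉ B → g w = w :=
        ⟨ofSubtype (h.subtypePerm hinv), fun w hw => ofSubtype_subtypePerm_of_mem hinv hw,
          fun w hw => ofSubtype_subtypePerm_of_not_mem hinv hw⟩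
      have hg : ∀ w, a (h w) = a (g w) := fun w => by
        by_cases e : w ∈ B
        · rw [g1 w e]
        · rw [g2 w e, hout w e]
      obtain ⟨i1, i2⟩ := hev g fun w => by
        by_cases e : w ∈ B
        · exact Or.inr ⟨e, by rw [g1 w e]; exact (hinv w).2 e⟩
        · exact Or.inl (g2 w e).symm
      rcases Int.units_eq_one_or (Perm.sign g) with e | e
      · exact ⟨g, i1 e, hg⟩
      · refine ⟨_, i2 e x y hne (Or.inr ⟨hxB, (mB y).2 hs⟩), fun w => ?_⟩
        rw [hg w, Perm.mul_apply, swap_apply_def]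
        split_ifs with e1 e2
        · rw [e1, he]
        · rw [e2, he]
        · rfl
    rwa [card_union_of_disjoint (disjoint_left.2 fun w h1 h2 =>
      mem_compl.1 (mem_filter.1 h2).1 (mem_of_mem_erase h1)), card_erase_of_mem hxB] at this
  have hsum := sum_le_sum fun j (_ : j ∈ (univ : Finset (Fin k))) => key j
  rw [sum_add_distrib, ← card_eq_sum_card_fiberwise (fun w _ => mem_coe.2 (mem_univ (a w))),
    card_compl] at hsum
  simp only [sum_const, card_univ, Fintype.card_fin, smul_eq_mul] at hsum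
  have h1 := C.cnt
  have h2 := C.three
  have h4 : B.card ≤ Fintype.card α := card_le_univ B
  obtain ⟨b, hb⟩ : ∃ b, B.card = b + 3 := ⟨B.card - 3, by omega⟩
  obtain ⟨c, rfl⟩ : ∃ c, k = c + 3 := ⟨k - 3, by omega⟩
  rw [hb] at hsum h4
  have : b + 3 - 1 = b + 2 := by omega
  rw [this] at hsum
  have : (c + 3) * (b + 2) = c * b + 2 * c + 3 * b + 6 := by ring
  omega

/-- a point is fixed if it is alone in its class inside the support and has a partner outside -/
theorem fix_of_rel {R : α → α → Prop} (hR : Equivalence R) {h : Perm α} {Γ : Finset α}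
    (hh : ∀ x y, R x y → R (h x) (h y)) (hs : ∀ z, z ∉ Γ → h z = z) {z z' : α} (h1 : R z z')
    (h2 : z' ∉ Γ) (h3 : ∀ w ∈ Γ, R z w → w = z) : h z = z := by
  by_cases e : z ∈ Γ
  · refine h3 _ (mem_of_fix (P := fun w => w ∈ Γ) hs e) ?_
    have := hh z z' h1
    rw [hs z' h2] at this
    exact hR.trans h1 (hR.symm this)
  · exact hs z e

theorem exists_max_triv (H : Subgroup (Perm α)) (S : Finset α) :
    ∃ V ⊆ S, (∀ h ∈ H, (∀ z, z ∉ V → h z = z) → h = 1) ∧
      ∀ x ∈ S, x ∉ V → ∃ h ∈ H, (∀ z, z ∉ V → z ≠ x → h z = z) ∧ h x ≠ x := by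
  classical
  obtain ⟨V, hV, hm⟩ := exists_max_image
    (S.powerset.filter fun V => ∀ h ∈ H, (∀ z, z ∉ V → h z = z) → h = 1) card
    ⟨∅, mem_filter.2 ⟨empty_mem_powerset S, fun h _ k => Equiv.ext fun z => k z (notMem_empty z)⟩⟩
  obtain ⟨h1, h2⟩ := mem_filter.1 hV
  refine ⟨V, mem_powerset.1 h1, h2, fun x hx hxV => ?_⟩
  by_contra hc
  have := hm (insert x V) (mem_filter.2 ⟨mem_powerset.2 (insert_subset hx (mem_powerset.1 h1)),
    fun h hh hs => h2 h hh fun z hz => by
      by_cases e : z = x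
      · by_contra k
        exact hc ⟨h, hh, fun w h3 h4 => hs w (by simp [h3, h4]), e ▸ k⟩
      · exact hs z (by simp [hz, e])⟩)
  rw [card_insert_of_notMem hxV] at this
  omega

end Pool.Agent.Lib.MP_4c291d_al
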