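import Pool.Agent.Lib.MP_4c291d_al.B

/-! The invariant partition. -/

namespace Pool.Agent.Lib.MP_4c291d_al

open Equiv Equiv.Perm Finset

set_option linter.unusedSectionVars false

variable {α : Type} [DecidableEq α] [Fintype α]
variable {G H : Subgroup (Perm α)} {q k : ℕ} {a : α → Fin k} {x y z : α}

/-- the blocks: classes of three-cycles of `G`, or pairs swapped by a transposition of `H` -/
def Rel (G H : Subgroup (Perm α)) (x y : α) : Prop := Sim G x y ∨ swap x y ∈ H

theorem Ctx.sim_swap (C : Ctx G H q k a) (h : Sim G x y) (h' : swap y z ∈ H) : Rel G H x z := by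
  by_cases e1 : x = y
  · exact Or.inr (e1 ▸ h')
  by_cases e2 : x = z
  · exact Or.inl (Or.inl e2)
  have := C.sim_map h' h
  rw [swap_apply_of_ne_of_ne e1 e2, swap_apply_left] at this
  exact Or.inl this

theorem Rel.symm (h : Rel G H x y) : Rel G H y x := h.imp Sim.symm fun k => swap_comm x y ▸ k

theorem Ctx.equiv (C : Ctx G H q k a) : Equivalence (Rel G H) := by
  refine ⟨fun x => Or.inl (Sim.refl x), Rel.symm, fun {x y z} h h' => ?_⟩
  rcases h with h | h <;> rcases h' with h' | h'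
  · exact Or.inl (h.trans h')
  · exact C.sim_swap h h'
  · exact (C.sim_swap h'.symm (swap_comm x y ▸ h)).symm
  · by_cases e1 : x = y
    · exact Or.inr (e1 ▸ h')
    by_cases e2 : x = z
    · exact Or.inl (Or.inl e2)
    have := H.mul_mem (H.mul_mem h' h) h'
    rw [swap_mul_swap_mul_swap e1 e2, swap_comm] at this
    exact Or.inr this

theorem Ctx.rel_map (C : Ctx G H q k a) {h : Perm α} (hh : h ∈ H) (hs : Rel G H x y) :
    Rel G H (h x) (h y) :=
  hs.imp (C.sim_map hh) fun k => by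
    rw [swap_apply_apply]; exact H.mul_mem (H.mul_mem hh k) (H.inv_mem hh)

theorem Ctx.rel_card [DecidablePred (Rel G H x)] (C : Ctx G H q k a) :
    (univ.filter (Rel G H x)).card ≤ k := by
  by_cases hx : ∃ x', x' ≠ x ∧ Sim G x x'
  · obtain ⟨x', h1, h2⟩ := hx
    have key : ∀ y, Rel G H x y → Sim G x y := fun y hy => hy.elim id fun k => by
      by_cases e : x' = y
      · exact e ▸ h2
      have := C.sim_map k h2.symm
      rw [swap_apply_of_ne_of_ne h1 e, swap_apply_left] at this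
      exact h2.trans this
    have := card_le_card_of_injOn (s := univ.filter (Rel G H x)) (t := (univ : Finset (Fin k))) a
      (fun w _ => mem_coe.2 (mem_univ _)) fun u hu v hv e =>
        C.rainbow ((key u (mem_filter.1 hu).2).symm.trans (key v (mem_filter.1 hv).2)) e
    simpa using this
  · have key : ∀ y, Rel G H x y → y ≠ x → swap x y ∈ H := fun y hy hne =>
      hy.resolve_left fun k => hx ⟨y, hne, k⟩
    have h3 := C.three
    by_cases h2 : ∃ y, y ≠ x ∧ Rel G H x y
    · obtain ⟨y, a1, a2⟩ := h2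
      have : univ.filter (Rel G H x) ⊆ {x, y} := fun w hw => by
        by_contra hn
        rw [mem_insert, mem_singleton, not_or] at hn
        refine hx (C.c3 (Γ := {y}) (Γ' := {w}) (by simp) (by simp)
          (disjoint_singleton.2 (Ne.symm hn.2)) (by simpa using a1.symm)
          (by simpa using Ne.symm hn.1) (key y a2 a1) (key w (mem_filter.1 hw).2 hn.1)
          (fun z b1 b2 => swap_apply_of_ne_of_ne b2 (by simpa using b1))
          (fun z b1 b2 => swap_apply_of_ne_of_ne b2 (by simpa using b1))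
          (by rwa [swap_apply_left]) (by rw [swap_apply_left]; exact hn.1))
      have := (card_le_card this).trans card_le_two
      omega
    · have : univ.filter (Rel G H x) ⊆ {x} := fun w hw =>
        mem_singleton.2 (not_not.1 fun k => h2 ⟨w, k, (mem_filter.1 hw).2⟩)
      have := card_le_card this
      rw [card_singleton] at this
      omega

/-- at most one block is a single point -/
theorem Ctx.single (C : Ctx G H q k a) (hx : ∀ w, Rel G H x w → w = x)
    (hy : ∀ w, Rel G H y w → w = y) : x = y := by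
  classical
  by_contra hne
  have hS : Equivalence (Sim G) := ⟨Sim.refl, Sim.symm, Sim.trans⟩
  obtain ⟨ρ, r1, r2⟩ := exists_rep hS
  obtain ⟨U, mU⟩ : ∃ U : Finset α, ∀ w, w ∈ U ↔ ∀ v, Sim G w v → v = w :=
    ⟨univ.filter fun w => ∀ v, Sim G w v → v = w, fun w => by simp⟩
  have nU : ∀ u v, Sim G u v → u ∉ U → v ∉ U := fun u v h hu hv =>
    hu (((mU v).1 hv u h.symm) ▸ hv)
  obtain ⟨T, mT⟩ : ∃ T : Finset α, ∀ w, w ∈ T ↔ w ∉ U ∧ ρ w = w :=
    ⟨univ.filter fun w => w ∉ U ∧ ρ w = w, fun w => by simp⟩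
  have ρT : ∀ w, w ∉ U → ρ w ∈ T := fun w hw =>
    (mT _).2 ⟨nU _ _ (r1 w) hw, (r2 _ _ (r1 w)).symm⟩
  have hTU : ∀ V ⊆ U, Disjoint T V := fun V hV =>
    disjoint_left.2 fun w h1 h2 => ((mT w).1 h1).1 (hV h2)
  have fixT : ∀ V ⊆ U, ∀ h ∈ H, (∀ z, z ∉ T ∪ V → h z = z) → ∀ z, z ∉ V → h z = z := by
    intro V hV h hh hs z hz
    by_cases e : z ∈ T
    · obtain ⟨e1, e2⟩ := (mT z).1 e
      obtain ⟨z', b1, b2⟩ : ∃ z', Sim G z z' ∧ z' ≠ z := by
        by_contra hc
        exact e1 ((mU z).2 fun v hv => not_not.1 fun k => hc ⟨v, hv, k⟩)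
      have key : ∀ w ∈ T ∪ V, Sim G z w → w = z := fun w hw k => by
        rcases mem_union.1 hw with c | c
        · rw [← ((mT w).1 c).2, ← r2 _ _ k, e2]
        · exact absurd (hV c) (nU _ _ k e1)
      exact fix_of_rel hS (fun _ _ => C.sim_map hh) hs b1 (fun c => b2 (key _ c b1)) key
    · exact hs z (by simp [e, hz])
  obtain ⟨V, v1, v2, v3⟩ := exists_max_triv H U
  obtain ⟨V', w1, w2, w3⟩ := exists_max_triv H (U \ V)
  have w1' : V' ⊆ U := w1.trans sdiff_subset
  have cV := C.card_le (Γ := T ∪ V) fun h hh hs => v2 h hh (fixT V v1 h hh hs)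
  have cV' := C.card_le (Γ := T ∪ V') fun h hh hs => w2 h hh (fixT V' w1' h hh hs)
  rw [card_union_of_disjoint (hTU V v1)] at cV
  rw [card_union_of_disjoint (hTU V' w1')] at cV'
  have cU : U.card ≤ V.card + V'.card := by
    refine (card_le_card fun w hw => ?_).trans (card_union_le V V')
    by_contra hn
    rw [mem_union, not_or] at hn
    obtain ⟨h, a1, a2, a3⟩ := v3 w hw hn.1
    obtain ⟨h', b1, b2, b3⟩ := w3 w (mem_sdiff.2 ⟨hw, hn.1⟩) hn.2
    obtain ⟨t, c1, c2⟩ := C.c3 (Γ := V) (Γ' := V') (by omega) (by omega)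
      (disjoint_left.2 fun t d1 d2 => (mem_sdiff.1 (w1 d2)).2 d1) hn.1 hn.2 a1 b1 a2 b2 a3 b3
    exact c1 ((mU w).1 hw t c2)
  have cn : Uᶜ.card ≤ T.card * k := by
    have := card_le_card_of_injOn (s := Uᶜ) (t := T ×ˢ (univ : Finset (Fin k)))
      (fun w => (ρ w, a w))
      (fun w hw => mem_coe.2 (mem_product.2 ⟨ρT w (mem_compl.1 hw), mem_univ _⟩))
      fun u _ v _ e => by
        obtain ⟨e1, e2⟩ := Prod.ext_iff.1 e
        have e1' : ρ u = ρ v := e1
        exact C.rainbow ((r1 u).trans (e1' ▸ (r1 v).symm)) e2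
    simpa using this
  have hxU : x ∈ U := (mU x).2 fun v hv => hx v (Or.inl hv)
  have hyU : y ∈ U := (mU y).2 fun v hv => hy v (Or.inl hv)
  have c2 : 2 ≤ U.card := one_lt_card.2 ⟨x, hxU, y, hyU, hne⟩
  have c3 : U.card ≤ Fintype.card α := card_le_univ U
  have h1 := C.cnt
  have h2 := C.three
  have h3 := C.big
  rw [card_compl] at cn
  obtain ⟨d, hd⟩ : ∃ d, q = T.card + d := ⟨q - T.card, by omega⟩
  have h4 : k * d < U.card + k := by
    rw [hd, mul_add, mul_comm k T.card] at h1; omega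
  have nx : ∀ w, w ≠ x → swap x w ∉ H := fun w c k => c (hx w (Or.inr k))
  have ny : ∀ w, w ≠ y → swap y w ∉ H := fun w c k => c (hy w (Or.inr k))
  have hd2 : d = 1 ∨ (d = 2 ∧ k = 3 ∧ U.card = 4) := by
    rcases (show d = 0 ∨ d = 1 ∨ d = 2 ∨ 3 ≤ d by omega) with e | e | e | e
    · omega
    · exact Or.inl e
    · subst e; omega
    · exfalso
      obtain ⟨c, rfl⟩ : ∃ c, k = c + 3 := ⟨k - 3, by omega⟩
      obtain ⟨f, rfl⟩ : ∃ f, d = f + 3 := ⟨d - 3, by omega⟩
      have : (c + 3) * (f + 3) = c * f + 3 * c + 3 * f + 9 := by ring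
      omega
  rcases hd2 with e | ⟨e, ek, eU⟩
  · have hV : ({x, y} : Finset α) ⊆ U := by simp [insert_subset_iff, hxU, hyU]
    obtain ⟨h, a1, a2, a3⟩ := C.exists_not_mem (Γ := T ∪ {x, y})
      (by rw [card_union_of_disjoint (hTU _ hV), card_pair hne]; omega)
    have h0 : h ≠ 1 := fun k => a3 (k ▸ G.one_mem)
    obtain ⟨-, b⟩ := eq_swap (x := x) (y := y) h0
      fun z c1 c2 => fixT _ hV h a1 a2 z (by simp [c1, c2])
    exact nx y (Ne.symm hne) (b ▸ a1)
  obtain ⟨z, hzU, hz⟩ : ∃ z ∈ U, z ∉ ({x, y} : Finset α) :=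
    exists_mem_notMem_of_card_lt_card (by rw [card_pair hne]; omega)
  rw [mem_insert, mem_singleton, not_or] at hz
  have hV : ({x, y, z} : Finset α) ⊆ U := by simp [insert_subset_iff, hxU, hyU, hzU]
  obtain ⟨h, a1, a2, a3⟩ := C.exists_not_mem (Γ := T ∪ {x, y, z}) (by
    rw [card_union_of_disjoint (hTU _ hV),
      card_eq_three.2 ⟨x, y, z, hne, Ne.symm hz.1, Ne.symm hz.2, rfl⟩]; omega)
  have hs : ∀ w, w ≠ x → w ≠ y → w ≠ z → h w = w := fun w c1 c2 c3 =>
    fixT _ hV h a1 a2 w (by simp [c1, c2, c3])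
  have hsU : ∀ w, w ∉ U → h w = w := fun w c =>
    fixT _ hV h a1 a2 w fun c' => c (hV c')
  have h0 : h ≠ 1 := fun k => a3 (k ▸ G.one_mem)
  have hsq : h * h ∈ G := by
    obtain ⟨g, b1, b2⟩ := C.app h a1 (T ∪ U)ᶜ (by
      rw [card_compl, card_union_of_disjoint (hTU U subset_rfl)]; omega)
    have : h * h = g * g := Equiv.ext fun w => by
      simp only [Perm.mul_apply]
      by_cases c : w ∈ U
      · have c' : h w ∈ U := mem_of_fix (P := fun w => w ∈ U) hsU c
        rw [b2 w (by simp [c]), b2 _ (by simp [c'])]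
      · rw [hsU w c, hsU w c]
        have t1 : g (ρ w) = ρ w := by
          rw [b2 _ (by simp [ρT w c]), hsU _ (nU _ _ (r1 w) c)]
        have s0 : Sim G (ρ w) w := (r1 w).symm
        have s1 : Sim G (ρ w) (g w) := t1 ▸ s0.conj b1
        have s2 : Sim G (ρ w) (g (g w)) := t1 ▸ s1.conj b1
        by_contra hc
        have n1 : g w ≠ w := fun k => hc (by rw [k, k])
        have n2 : ρ w ≠ w := fun k => n1 (k ▸ t1)
        have n3 : ρ w ≠ g w := fun k => n2 (g.injective (t1.trans k))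
        have n4 : ρ w ≠ g (g w) := fun k => n3 (g.injective (t1.trans k))
        have m1 := mt (C.rainbow s0) n2
        have m2 := mt (C.rainbow s1) n3
        have m3 := mt (C.rainbow s2) n4
        have m4 := mt (C.rainbow (s1.symm.trans s0)) n1
        have m5 := mt (C.rainbow (s0.symm.trans s2)) hc
        have m6 := mt (C.rainbow (s2.symm.trans s1)) fun k => n1 (g.injective k)
        rw [Fin.ext_iff] at m1 m2 m3 m4 m5 m6
        have := (a (ρ w)).2
        have := (a w).2
        have := (a (g w)).2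
        have := (a (g (g w))).2
        omega
    exact this ▸ G.mul_mem b1 b1
  by_cases e1 : h x = x
  · obtain ⟨b1, b⟩ := eq_swap (x := y) (y := z) h0 fun w c1 c2 => by
      by_cases c : w = x
      · rw [c, e1]
      · exact hs w c c1 c2
    exact ny z b1.symm (b ▸ a1)
  by_cases e2 : h y = y
  · obtain ⟨b1, b⟩ := eq_swap (x := x) (y := z) h0 fun w c1 c2 => by
      by_cases c : w = y
      · rw [c, e2]
      · exact hs w c1 c c2
    exact nx z b1.symm (b ▸ a1)
  by_cases e3 : h z = z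
  · obtain ⟨b1, b⟩ := eq_swap (x := x) (y := y) h0 fun w c1 c2 => by
      by_cases c : w = z
      · rw [c, e3]
      · exact hs w c1 c2 c
    exact nx y b1.symm (b ▸ a1)
  have hxyz : C3 G x y z := by
    by_cases e4 : h x = y
    · exact ⟨hne, Ne.symm hz.1, Ne.symm hz.2,
        sq_eq_of_three hne (Ne.symm hz.1) (Ne.symm hz.2) hs e4 e3 ▸ hsq⟩
    · have e5 : h x = z := by
        by_contra e5
        exact e1 (h.injective (hs _ e1 e4 e5))
      exact C3.s23 ⟨Ne.symm hz.1, hne, hz.2, sq_eq_of_three (Ne.symm hz.1) hne hz.2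
        (fun w c1 c2 c3 => hs w c1 c3 c2) e5 e2 ▸ hsq⟩
  exact hne (hx y (Or.inl (Or.inr ⟨z, hxyz⟩))).symm

end Pool.Agent.Lib.MP_4c291d_al
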