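import Pool.Agent.Lib.MP_4c291d_al.C
import Pool.Agent.Results.MP_4c291d_al.Exact

/-! The structure of the extremal groups. -/

namespace Pool.Agent.Lib.MP_4c291d_al

open Equiv Equiv.Perm Finset Pool.Agent.Results.MP_4c291d_al.Exact

set_option linter.unusedSectionVars false

section
variable {α : Type} [DecidableEq α] [Fintype α]
variable {G H : Subgroup (Perm α)} {q k : ℕ} {a : α → Fin k}

theorem Ctx.final (C : Ctx G H q k a) : ∃ β : α → Fin q,
    (∀ i, (univ.filter fun x => β x = i).card ≤ k) ∧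
    (∀ g ∈ G, ∀ x y, β x = β y → β (g x) = β (g y)) ∧
    ∀ σ : Perm α, (∀ x, β (σ x) = β x) → (σ ∈ G ↔ Perm.sign σ = 1) := by
  classical
  have hR := C.equiv
  obtain ⟨ρ, r1, r2⟩ := exists_rep hR
  obtain ⟨T, mT⟩ : ∃ T : Finset α, ∀ w, w ∈ T ↔ ρ w = w :=
    ⟨univ.filter fun w => ρ w = w, fun w => by simp⟩
  have ρT : ∀ w, ρ w ∈ T := fun w => (mT _).2 (r2 _ _ (r1 w)).symm
  have fixz : ∀ (Γ : Finset α), ∀ h ∈ H, (∀ z, z ∉ Γ → h z = z) → ∀ z,
      (∀ w ∈ Γ, Rel G H z w → w = z) → h z = z := by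
    intro Γ h hh hs z key
    by_cases e : ∃ z', Rel G H z z' ∧ z' ≠ z
    · obtain ⟨z', b1, b2⟩ := e
      exact fix_of_rel hR (fun _ _ => C.rel_map hh) hs b1 (fun c => b2 (key _ c b1)) key
    · have e1 : ∀ w, Rel G H z w → w = z := fun w hw => not_not.1 fun c => e ⟨w, hw, c⟩
      refine C.single (fun w hw => ?_) e1
      have := e1 _ (by simpa using C.rel_map (H.inv_mem hh) hw)
      rw [← this]; simp
  have c1 : T.card ≤ q := C.card_le fun h hh hs => Equiv.ext fun z => by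
    by_cases e : z ∈ T
    · exact fixz T h hh hs z fun w hw k => by rw [← (mT w).1 hw, ← r2 _ _ k, (mT z).1 e]
    · exact hs z e
  have cf : ∀ b, (univ.filter fun x => ρ x = b).card ≤ k := fun b =>
    (card_le_card fun w hw => mem_filter.2
      ⟨mem_univ _, (mem_filter.1 hw).2 ▸ hR.symm (r1 w)⟩).trans (C.rel_card (x := b))
  have c2 : T.card = q := by
    have h1 := card_le_mul_card_image_of_maps_to (s := univ) (t := T) (f := ρ)
      (fun w _ => ρT w) k fun b _ => cf b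
    rw [card_univ] at h1
    have h2 := C.cnt
    have : k * q < k * (T.card + 1) := by rw [mul_add]; omega
    have := Nat.lt_of_mul_lt_mul_left this
    omega
  have key : ∀ x y, x ≠ y → Rel G H x y →
      (swap x y ∈ H ∧ swap x y ∉ G) ∧ ∀ π ∈ H, π ∈ G ∨ swap x y * π ∈ G := by
    intro x y hne hxy
    have n1 : y ∉ T.erase (ρ x) := fun c =>
      (mem_erase.1 c).1 (by rw [r2 _ _ hxy, (mT y).1 (mem_of_mem_erase c)])
    have n2 : x ∉ insert y (T.erase (ρ x)) := fun c => (mem_insert.1 c).elim hne fun c =>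
      (mem_erase.1 c).1 ((mT x).1 (mem_of_mem_erase c)).symm
    have hc : q + 1 ≤ (insert x (insert y (T.erase (ρ x)))).card := by
      rw [card_insert_of_notMem n2, card_insert_of_notMem n1, card_erase_of_mem (ρT x)]
      have := card_pos.2 ⟨_, ρT x⟩
      omega
    have hs : ∀ h ∈ H, (∀ z, z ∉ insert x (insert y (T.erase (ρ x))) → h z = z) → h ≠ 1 →
        h = swap x y := fun h hh hs h0 => (eq_swap h0 fun z e1 e2 => by
      by_cases e : z ∈ T.erase (ρ x)
      · obtain ⟨f1, f2⟩ := mem_erase.1 e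
        have f3 := (mT z).1 f2
        refine fixz _ h hh hs z fun w hw k => ?_
        rcases mem_insert.1 hw with rfl | hw
        · exact absurd (by rw [← r2 _ _ k, f3]) f1
        rcases mem_insert.1 hw with rfl | hw
        · exact absurd (by rw [r2 _ _ hxy, ← r2 _ _ k, f3]) f1
        · rw [← (mT w).1 (mem_of_mem_erase hw), ← r2 _ _ k, f3]
      · exact hs z (by rw [mem_insert, mem_insert]; tauto)).2
    constructor
    · obtain ⟨h, a1, a2, a3⟩ := C.exists_not_mem hc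
      have := hs h a1 a2 fun k => a3 (k ▸ G.one_mem)
      exact this ▸ ⟨a1, a3⟩
    · intro π hπ
      obtain ⟨g, a1, a2⟩ := C.app _ (H.inv_mem hπ) _ hc
      by_cases e : π * g = 1
      · left
        rw [eq_inv_of_mul_eq_one_left e]
        exact G.inv_mem a1
      · right
        have := hs _ (H.mul_mem hπ (C.le a1)) (fun z hz => by simp [a2 z hz]) e
        rw [eq_mul_inv_of_mul_eq this, swap_mul_self_mul]
        exact G.inv_mem a1
  have hev := even_mem (G := G) hR fun x y z w h1 h2 k1 k2 =>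
    ((key x y h1 k1).2 _ (key z w h2 k2).1.1).resolve_left (key z w h2 k2).1.2
  let e := T.equivFinOfCardEq c2
  have hβ : ∀ x y, e ⟨ρ x, ρT x⟩ = e ⟨ρ y, ρT y⟩ ↔ Rel G H x y := fun x y => by
    rw [e.apply_eq_iff_eq, Subtype.mk.injEq]
    exact ⟨fun k => hR.trans (r1 x) (k ▸ hR.symm (r1 y)), r2 x y⟩
  refine ⟨fun x => e ⟨ρ x, ρT x⟩, fun i => ?_, fun g hg x y k => ?_, fun σ hσ => ?_⟩
  · refine (card_le_card fun w hw => ?_).trans (cf (e.symm i))
    refine mem_filter.2 ⟨mem_univ _, ?_⟩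
    rw [← (mem_filter.1 hw).2, e.symm_apply_apply]
  · exact (hβ _ _).2 (C.rel_map (C.le hg) ((hβ _ _).1 k))
  · have h1 : ∀ x, Rel G H x (σ x) := fun x => hR.symm ((hβ _ _).1 (hσ x))
    refine ⟨fun hg => ?_, (hev σ h1).1⟩
    refine (Int.units_eq_one_or _).resolve_right fun hs => ?_
    obtain ⟨x, hx⟩ : ∃ x, σ x ≠ x := by
      by_contra hc
      have : σ = 1 := Equiv.ext fun x => not_not.1 fun k => hc ⟨x, k⟩
      rw [this] at hs
      exact absurd hs (by simp)
    have := G.mul_mem ((hev σ h1).2 hs x (σ x) hx.symm (h1 x)) (G.inv_mem hg)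
    rw [mul_inv_cancel_right] at this
    exact (key x (σ x) hx.symm (h1 x)).1.2 this

/-- the permutations that agree with an element of `G` outside any set of more than `q` points -/
def clo (G : Subgroup (Perm α)) (q : ℕ) : Subgroup (Perm α) where
  carrier := {π | ∀ Γ : Finset α, q + 1 ≤ Γ.card → ∃ g ∈ G, ∀ z, z ∉ Γ → g z = π z}
  mul_mem' := by
    intro π π' h h' Γ hΓ
    obtain ⟨g', a1, a2⟩ := h' Γ hΓ
    obtain ⟨g, b1, b2⟩ := h (Γ.map π'.toEmbedding) (by rwa [card_map])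
    refine ⟨g * g', G.mul_mem b1 a1, fun z hz => ?_⟩
    rw [Perm.mul_apply, Perm.mul_apply, a2 z hz, b2 _ (by simpa using hz)]
  one_mem' := fun _ _ => ⟨1, G.one_mem, fun _ _ => rfl⟩
  inv_mem' := by
    intro π h Γ hΓ
    obtain ⟨g, b1, b2⟩ := h (Γ.map π⁻¹.toEmbedding) (by rwa [card_map])
    refine ⟨g⁻¹, G.inv_mem b1, fun z hz => ?_⟩
    rw [Perm.inv_eq_iff_eq, b2 (π⁻¹ z) fun c => hz ((mem_map' π⁻¹.toEmbedding).1 c)]
    simp

end

theorem closed_of_clo {n q : ℕ} (hn : q + 1 ≤ n) {G : Subgroup (Perm (Fin n))}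
    (h : ∀ π ∈ clo G q, π ∈ G) : MClosed (n - q - 1) G := by
  classical
  refine ⟨{ρ | ∀ g ∈ G, ∀ r ∈ ρ, (fun j => g (r j)) ∈ ρ},
    fun π => ⟨fun hπ ρ hρ r hr => hρ π hπ r hr, fun hπ => h π fun Γ hΓ => ?_⟩⟩
  have hc : Fintype.card (Γᶜ : Finset (Fin n)) ≤ Fintype.card (Fin (n - q - 1)) := by
    rw [Fintype.card_coe, card_compl, Fintype.card_fin, Fintype.card_fin]; omega
  obtain ⟨e⟩ := Function.Embedding.nonempty_of_card_le hc
  obtain ⟨r, hr⟩ : ∃ r : Fin (n - q - 1) → Fin n, ∀ z, z ∉ Γ → ∃ j, r j = z :=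
    ⟨Function.extend e (fun x => (x : Fin n)) (fun _ => ⟨0, by omega⟩),
      fun z hz => ⟨e ⟨z, mem_compl.2 hz⟩, e.injective.extend_apply _ _ _⟩⟩
  obtain ⟨g, hg, k⟩ := hπ {s | ∃ g ∈ G, s = fun j => g (r j)} (by
    rintro g hg s ⟨h, hh, rfl⟩
    exact ⟨g * h, G.mul_mem hg hh, by ext j; simp⟩) r ⟨1, G.one_mem, by ext j; simp⟩
  refine ⟨g, hg, fun z hz => ?_⟩
  obtain ⟨j, rfl⟩ := hr z hz
  exact (congrFun k j).symm

theorem exists_ctx {n k q : ℕ} (hk : 3 ≤ k) (hn : 2 * q + 3 ≤ n) (hq : k * q < n + k)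
    {G : Subgroup (Perm (Fin n))} (hG : GaloisClosed k G) (h : ¬ MClosed (n - q - 1) G) :
    ∃ a : Fin n → Fin k, Ctx G (clo G q) q k a := by
  obtain ⟨π, h1, h2⟩ : ∃ π ∈ clo G q, π ∉ G := by
    by_contra hc
    exact h (closed_of_clo (by omega) fun π hπ => not_not.1 fun k => hc ⟨π, hπ, k⟩)
  obtain ⟨F, hF⟩ := hG
  obtain ⟨f, hf, a, ha⟩ : ∃ f ∈ F, ∃ a : Fin n → Fin k, f (fun i => a (π i)) ≠ f a := by
    by_contra hc
    exact h2 ((hF π).2 fun f hf a => not_not.1 fun k => hc ⟨f, hf, a, k⟩)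
  refine ⟨a, fun g hg _ _ => ⟨g, hg, fun _ _ => rfl⟩, fun h hh => hh, fun Γ hΓ => ?_,
    by simpa using hn, hk, by simpa using hq⟩
  by_contra hc
  obtain ⟨g, a1, a2⟩ := (clo G q).inv_mem h1 Γ (by omega)
  obtain ⟨g', b1, b2⟩ := hΓ (π * g) ((clo G q).mul_mem h1 fun _ _ => ⟨g, a1, fun _ _ => rfl⟩)
    fun z hz => by simp [a2 z hz]
  refine ha ?_
  rw [← (hF _).1 (G.mul_mem b1 (G.inv_mem a1)) f hf a]
  congr 1
  funext i
  simpa using b2 (g⁻¹ i)

theorem not_closed {n q m : ℕ} (hm : m + q < n) {G : Subgroup (Perm (Fin n))} (β : Fin n → Fin q)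
    (h : ∀ σ : Perm (Fin n), (∀ x, β (σ x) = β x) → (σ ∈ G ↔ Perm.sign σ = 1)) :
    ¬ MClosed m G := by
  classical
  rintro ⟨R, hR⟩
  have two : ∀ S : Finset (Fin n), q < S.card → ∃ u ∈ S, ∃ v ∈ S, u ≠ v ∧ β u = β v :=
    fun S hS => exists_ne_map_eq_of_card_lt_of_maps_to (t := univ) (by simpa using hS)
      fun _ _ => mem_coe.2 (mem_univ _)
  have sw : ∀ u v, β u = β v → ∀ x, β (swap u v x) = β x := fun u v e x => by
    rw [swap_apply_def]
    split_ifs with h1 h2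
    · rw [h1, e]
    · rw [h2, e]
    · rfl
  obtain ⟨x, -, y, -, hxy, hb⟩ := two univ (by simp; omega)
  have hmem : swap x y ∈ G := by
    rw [hR]
    intro ρ hρ r hr
    obtain ⟨u, hu, v, hv, huv, hb'⟩ := two (univ.image r)ᶜ (by
      have h1 : (univ.image r).card ≤ m := by
        simpa using card_image_le (s := (univ : Finset (Fin m))) (f := r)
      rw [card_compl, Fintype.card_fin]; omega)
    have hg : swap x y * swap u v ∈ G :=
      (h _ fun z => by rw [Perm.mul_apply, sw x y hb, sw u v hb']).2 (by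
        rw [Perm.sign_mul, sign_swap hxy, sign_swap huv]; simp)
    have heq : (fun j => (swap x y * swap u v) (r j)) = fun j => swap x y (r j) := by
      funext j
      have hj : r j ∈ univ.image r := mem_image_of_mem r (mem_univ j)
      have e1 : r j ≠ u := fun e => mem_compl.1 hu (e ▸ hj)
      have e2 : r j ≠ v := fun e => mem_compl.1 hv (e ▸ hj)
      rw [Perm.mul_apply, swap_apply_of_ne_of_ne e1 e2]
    exact heq ▸ (hR _).1 hg ρ hρ r hr
  have := (h _ (sw x y hb)).1 hmem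
  rw [sign_swap hxy] at this
  exact absurd this (by decide)

theorem extremal (n k : ℕ) (hk : 3 ≤ k) (hn : 2 * ((n - 1) / k + 1) + 3 ≤ n)
    (G : Subgroup (Perm (Fin n))) (hG : GaloisClosed k G) :
    IsLeast {m : ℕ | 1 ≤ m ∧ MClosed m G} (n - ((n - 1) / k + 1)) ↔
      ∃ β : Fin n → Fin ((n - 1) / k + 1), (∀ i, (univ.filter fun x => β x = i).card ≤ k) ∧
        (∀ g ∈ G, ∀ x y, β x = β y → β (g x) = β (g y)) ∧
        ∀ σ : Perm (Fin n), (∀ x, β (σ x) = β x) → (σ ∈ G ↔ Perm.sign σ = 1) := by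
  constructor
  · intro h
    have hq : k * ((n - 1) / k + 1) < n + k := by
      have := Nat.mul_div_le (n - 1) k
      rw [mul_add]; omega
    obtain ⟨a, C⟩ := exists_ctx hk hn hq hG fun hc => by
      have := h.2 ⟨by omega, hc⟩
      omega
    exact C.final
  · rintro ⟨β, -, -, h⟩
    refine ⟨⟨by omega, upper n k (by omega) (by omega) G hG⟩, fun m hm => ?_⟩
    by_contra hc
    exact not_closed (by omega) β h hm.2

end Pool.Agent.Lib.MP_4c291d_al
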